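import Pool.Agent.N662.SD.Prob

/-!
# Project SD: assembly of the main theorem
-/

set_option autoImplicit false

open MeasureTheory ProbabilityTheory Filter Topology

namespace Pool.Agent.N662.SD

lemma pow_dom {s t : ℝ} (hst : s < t) (C : ℝ) :
    ∀ᶠ n : ℕ in atTop, C * (n : ℝ) ^ s ≤ (n : ℝ) ^ t := by
  have h1 : Tendsto (fun n : ℕ => (n : ℝ) ^ (t - s)) atTop atTop :=
    (tendsto_rpow_atTop (by linarith)).comp tendsto_natCast_atTop_atTop
  filter_upwards [h1.eventually_ge_atTop C, eventually_gt_atTop 0] with n hn hn0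
  have hn1 : (0 : ℝ) < n := by exact_mod_cast hn0
  calc C * (n : ℝ) ^ s ≤ (n : ℝ) ^ (t - s) * (n : ℝ) ^ s :=
        mul_le_mul_of_nonneg_right hn (Real.rpow_nonneg hn1.le _)
    _ = (n : ℝ) ^ t := by rw [← Real.rpow_add hn1]; congr 1; ring

/-- a random variable which is not almost surely constant charges two separated half-lines -/
lemma gap {Ω : Type} [MeasurableSpace Ω] {P : Measure Ω} [IsProbabilityMeasure P] {X : Ω → ℝ}
    (hX : Measurable X) (hnc : ¬ ∃ c : ℝ, ∀ᵐ x ∂P, X x = c) :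
    ∃ a b : ℝ, a < b ∧ 0 < (P.map X).real (Set.Ici b) ∧ 0 < (P.map X).real (Set.Iic a) := by
  by_contra hcon
  push Not at hcon
  apply hnc
  have h0 : ∀ q : ℝ, P {y | X y ≤ q} = 0 ∨ P {y | q < X y} = 0 := by
    intro q
    by_contra hq
    push Not at hq
    obtain ⟨hq1, hq2⟩ := hq
    have h1 : {y | q < X y} = ⋃ n : ℕ, {y | q + 1 / ((n : ℝ) + 1) ≤ X y} := by
      ext y
      simp only [Set.mem_setOf_eq, Set.mem_iUnion]
      constructor
      · intro hy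
        obtain ⟨n, hn⟩ := exists_nat_one_div_lt (sub_pos.2 hy)
        exact ⟨n, by linarith⟩
      · rintro ⟨n, hn⟩
        have : (0 : ℝ) < 1 / ((n : ℝ) + 1) := by positivity
        linarith
    have h2 : ∃ n : ℕ, P {y | q + 1 / ((n : ℝ) + 1) ≤ X y} ≠ 0 := by
      by_contra h3
      push Not at h3
      apply hq2
      rw [h1]
      exact measure_iUnion_null h3
    obtain ⟨n, hn⟩ := h2
    have h4 : (0 : ℝ) < 1 / ((n : ℝ) + 1) := by positivity
    have h5 := hcon q (q + 1 / ((n : ℝ) + 1)) (by linarith) (by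
      rw [map_measureReal_apply hX measurableSet_Ici, measureReal_def]
      exact ENNReal.toReal_pos hn (measure_ne_top _ _))
    have h6 : 0 < (P.map X).real (Set.Iic q) := by
      rw [map_measureReal_apply hX measurableSet_Iic, measureReal_def]
      exact ENNReal.toReal_pos hq1 (measure_ne_top _ _)
    linarith
  have h1 : ∀ᵐ x ∂P, ∀ q : ℚ, (X x ≤ q ↔ P {y | (q : ℝ) < X y} = 0) := by
    rw [ae_all_iff]
    intro q
    rcases h0 q with h | h
    · have h2 : P {y | (q : ℝ) < X y} ≠ 0 := by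
        intro h3
        have h4 : P Set.univ = 0 := by
          have h5 : (Set.univ : Set Ω) = {y | X y ≤ q} ∪ {y | (q : ℝ) < X y} := by
            ext y
            simp [le_or_gt]
          rw [h5]
          exact measure_union_null h h3
        rw [measure_univ] at h4
        exact one_ne_zero h4
      have h3 : ∀ᵐ x ∂P, ¬ (X x ≤ q) := by
        rw [ae_iff]
        simpa using h
      filter_upwards [h3] with x hx
      exact ⟨fun h4 => absurd h4 hx, fun h4 => absurd h4 h2⟩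
    · have h3 : ∀ᵐ x ∂P, X x ≤ q := by
        rw [ae_iff]
        simpa using h
      filter_upwards [h3] with x hx
      exact ⟨fun _ => h, fun _ => hx⟩
  obtain ⟨x₀, hx₀⟩ := h1.exists
  refine ⟨X x₀, ?_⟩
  filter_upwards [h1] with x hx
  rcases lt_trichotomy (X x) (X x₀) with h | h | h
  · exfalso
    obtain ⟨q, hq1, hq2⟩ := exists_rat_btwn h
    have := (hx₀ q).2 ((hx q).1 hq1.le)
    linarith
  · exact h
  · exfalso
    obtain ⟨q, hq1, hq2⟩ := exists_rat_btwn h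
    have := (hx q).2 ((hx₀ q).1 hq1.le)
    linarith

/-- the event that the polymer is confined -/
def ev {Ω : Type} (ω : ℕ → ℤ → Ω → ℝ) (β θ a c v h : ℝ) (n : ℕ) : Set Ω :=
  {x | Real.exp (-(n : ℝ) ^ c) < prob β h (fun i y => ω i y x) n (tube θ v ((n : ℝ) ^ a) n)}

lemma measurableSet_ev {Ω : Type} [MeasurableSpace Ω] {ω : ℕ → ℤ → Ω → ℝ}
    (hm : ∀ i y, Measurable (ω i y)) (β θ a c v h : ℝ) (n : ℕ) :
    MeasurableSet (ev ω β θ a c v h n) :=
  measurableSet_lt measurable_const (measurable_prob β h _ hm)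

lemma inter_ge {Ω : Type} [MeasurableSpace Ω] {P : Measure Ω} [IsProbabilityMeasure P]
    {A B : Set Ω} (hB : MeasurableSet B) (h1 : 3 / 4 ≤ P.real A) (h2 : 3 / 4 ≤ P.real B) :
    1 / 2 ≤ P.real (A ∩ B) := by
  have h3 := measureReal_union_add_inter (μ := P) (s := A) hB
  have h4 : P.real (A ∪ B) ≤ 1 := measureReal_le_one
  linarith

/-- the exceptional slopes -/
def bad {Ω : Type} [MeasurableSpace Ω] (P : Measure Ω) (ω : ℕ → ℤ → Ω → ℝ) (β θ a c : ℝ) :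
    Set ℝ :=
  {v | ∃ h : ℝ, ∀ᶠ n : ℕ in atTop, 3 / 4 ≤ P.real (ev ω β θ a c v h n)}

lemma mono_of {Ω : Type} [MeasurableSpace Ω] {P : Measure Ω} [IsProbabilityMeasure P]
    {ω : ℕ → ℤ → Ω → ℝ} (he : IsEnv P ω) {β θ a c v v' h h' : ℝ} (hθ : θ ≤ 1) (ha : a < 1)
    (hc : c < 1) (hv : v < v')
    (h1 : ∀ᶠ n : ℕ in atTop, 3 / 4 ≤ P.real (ev ω β θ a c v h n))
    (h2 : ∀ᶠ n : ℕ in atTop, 3 / 4 ≤ P.real (ev ω β θ a c v' h' n)) : h ≤ h' := by
  by_contra hcon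
  push Not at hcon
  have hδ : 0 < (h - h') * (v' - v) := mul_pos (by linarith) (by linarith)
  have e1 := pow_dom ha (4 * (2 * (h - h')) / ((h - h') * (v' - v)))
  have e2 := pow_dom hc (4 * 2 / ((h - h') * (v' - v)))
  obtain ⟨n, hn1, hn2, hn3, hn4, hn0⟩ := (h1.and (h2.and (e1.and (e2.and
    (eventually_gt_atTop 0))))).exists
  have hn5 : (0 : ℝ) < n := by exact_mod_cast hn0
  have h3 := inter_ge (measurableSet_ev he.meas β θ a c v' h' n) hn1 hn2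
  have h4 : (ev ω β θ a c v h n ∩ ev ω β θ a c v' h' n).Nonempty := by
    rw [Set.nonempty_iff_ne_empty]
    intro h5
    rw [h5] at h3
    simp at h3
    linarith
  obtain ⟨x, hx1, hx2⟩ := h4
  have hnn : θ * n ≤ (n : ℝ) := by nlinarith
  have h5 := drift_mono (A := tube θ v ((n : ℝ) ^ a) n) (A' := tube θ v' ((n : ℝ) ^ a) n)
    (fun w hw => hw n hnn le_rfl) (fun w hw => hw n hnn le_rfl) hx1 hx2 hcon
  rw [Real.rpow_one, div_mul_eq_mul_div, div_le_iff₀ hδ] at hn3 hn4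
  have h6 : 0 < (n : ℝ) * ((h - h') * (v' - v)) := mul_pos hn5 hδ
  nlinarith

lemma bad_null (ac : S_AC) (sel : S_SEL) {Ω : Type} [MeasurableSpace Ω] {P : Measure Ω}
    [IsProbabilityMeasure P] {ω : ℕ → ℤ → Ω → ℝ} (he : IsEnv P ω)
    (hnc : ¬ ∃ c : ℝ, ∀ᵐ x ∂P, ω 1 0 x = c) {β : ℝ} (hβ : 0 < β) {θ a c : ℝ}
    (hθ1 : 1 / 2 ≤ θ) (hθ2 : θ < 1) (ha0 : 0 ≤ a) (ha : a < 3 / 5) (hc0 : 0 < c)
    (hc : c < (1 - a) / 2) : volume (bad P ω β θ a c) = 0 := by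
  classical
  by_contra hvol
  obtain ⟨a₀, b₀, hab, hp, hm⟩ := gap (he.meas 1 0) hnc
  set K0 := 1 / (P.map (ω 1 0)).real (Set.Ici b₀) + 1 / (P.map (ω 1 0)).real (Set.Iic a₀) with hK0
  have hK0pos : 0 < K0 := by positivity
  set q := 1 - Real.exp (-(β * (b₀ - a₀))) with hq
  have hqpos : 0 < q := by
    rw [hq]
    have : Real.exp (-(β * (b₀ - a₀))) < 1 := by
      rw [← Real.exp_zero]
      apply Real.exp_lt_exp.2
      have := mul_pos hβ (sub_pos.2 hab)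
      linarith
    linarith
  set B := bad P ω β θ a c with hB
  set g : ℝ → ℝ := fun v => if hv : v ∈ B then hv.choose else 0 with hg
  have hgs : ∀ v ∈ B, ∀ᶠ n : ℕ in atTop, 3 / 4 ≤ P.real (ev ω β θ a c v (g v) n) := by
    intro v hv
    simp only [hg, dif_pos hv]
    exact hv.choose_spec
  have hmono : MonotoneOn g B := by
    intro v hv v' hv' hvv
    rcases hvv.lt_or_eq with h1 | h1
    · exact mono_of he hθ2.le (by linarith) (by linarith) h1 (hgs v hv) (hgs v' hv')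
    · rw [h1]
  set r : ℕ → ℝ := fun n => 5 * (max (n : ℝ) 1) ^ (a - 1) with hr
  have hrpos : ∀ n, 0 < r n := fun n => by
    simp only [hr]
    have : (0 : ℝ) < max (n : ℝ) 1 := lt_max_of_lt_right one_pos
    positivity
  have hr0 : Tendsto r atTop (𝓝 0) := by
    have h1 : Tendsto (fun n : ℕ => max (n : ℝ) 1) atTop atTop :=
      tendsto_atTop_mono (fun n => le_max_left _ _) tendsto_natCast_atTop_atTop
    have h2 : Tendsto (fun n : ℕ => (max (n : ℝ) 1) ^ (-(1 - a))) atTop (𝓝 0) :=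
      (tendsto_rpow_neg_atTop (by linarith)).comp h1
    have h3 := h2.const_mul 5
    rw [mul_zero] at h3
    refine h3.congr fun n => ?_
    simp only [hr]
    congr 2
    ring
  obtain ⟨K, J, hKJ⟩ := sel B hvol g hmono
    (fun v n => 3 / 4 ≤ P.real (ev ω β θ a c v (g v) n)) hgs r hrpos hr0
  set m := max (2 * a - 1) c with hmdef
  have hm0 : 0 < m := lt_max_of_lt_right hc0
  have hm1 : 2 * m + a < 1 := by
    rcases max_choice (2 * a - 1) c with h | h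
    · rw [hmdef, h]; linarith
    · rw [hmdef, h]; linarith
  set C0 := 25 * |K| * |J| ^ 2 + 10 * |K| * |J| + 4 with hC0
  have hC0pos : 0 < C0 := by positivity
  have e1 := pow_dom hm1 (3 * K0 * C0 ^ 2 / ((1 - θ) * (q ^ 2 / 4)) + 1)
  obtain ⟨n, ⟨v, hv, v', hv', hd1, hd2, hd3, hd4, hd5⟩, hn1, hn0⟩ :=
    (hKJ.and (e1.and (eventually_ge_atTop 1))).exists
  have hn2 : (1 : ℝ) ≤ n := by exact_mod_cast hn0
  have hn3 : (0 : ℝ) < n := by linarith
  have hrn : r n = 5 * (n : ℝ) ^ (a - 1) := by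
    simp only [hr]
    rw [max_eq_left hn2]
  have hrn2 : r n * n = 5 * (n : ℝ) ^ a := by
    rw [hrn, mul_assoc]
    congr 1
    nth_rewrite 2 [← Real.rpow_one (n : ℝ)]
    rw [← Real.rpow_add hn3]
    congr 1
    ring
  have hna : 0 < (n : ℝ) ^ a := Real.rpow_pos_of_pos hn3 _
  have hd0 : 0 < v' - v := lt_of_lt_of_le (hrpos n) hd1
  have hh0 : 0 ≤ g v' - g v := sub_nonneg.2 (hmono hv hv' (by linarith))
  -- the tubes are disjoint
  have hvv : ∀ i : ℕ, θ * n ≤ i → 1 ≤ i → i ≤ n → 2 * (n : ℝ) ^ a < i * (v' - v) := by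
    intro i hi _ _
    have h1 : (n : ℝ) / 2 ≤ i := by nlinarith
    calc 2 * (n : ℝ) ^ a < (5 * (n : ℝ) ^ a) / 2 := by linarith
      _ = n / 2 * r n := by rw [← hrn2]; ring
      _ ≤ i * (v' - v) := mul_le_mul h1 hd1 (hrpos n).le (by positivity)
  -- the bound on R
  set R := (C0 - 2) * (n : ℝ) ^ m with hRdef
  have hnm : 1 ≤ (n : ℝ) ^ m := Real.one_le_rpow hn2 hm0.le
  have hR0 : 0 ≤ R := by
    have : 0 ≤ C0 - 2 := by
      rw [hC0]
      have : 0 ≤ 25 * |K| * |J| ^ 2 + 10 * |K| * |J| := by positivity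
      linarith
    positivity
  have hd6 : v' - v ≤ |J| * r n := hd2.trans (mul_le_mul_of_nonneg_right (le_abs_self _)
    (hrpos n).le)
  have hd7 : g v' - g v ≤ |K| * (|J| * r n) :=
    hd3.trans ((mul_le_mul_of_nonneg_right (le_abs_self K) hd0.le).trans
      (mul_le_mul_of_nonneg_left hd6 (abs_nonneg _)))
  have hq1 : r n * (n : ℝ) ^ a = 5 * (n : ℝ) ^ (2 * a - 1) := by
    rw [hrn, mul_assoc, ← Real.rpow_add hn3]
    congr 2
    ring
  have hm2 : (n : ℝ) ^ (2 * a - 1) ≤ (n : ℝ) ^ m := Real.rpow_le_rpow_of_exponent_le hn2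
    (le_max_left _ _)
  have hm3 : (n : ℝ) ^ c ≤ (n : ℝ) ^ m := Real.rpow_le_rpow_of_exponent_le hn2 (le_max_right _ _)
  have hR2 : (g v' - g v) * (n * (v' - v)) + 2 * |g v' - g v| * (n : ℝ) ^ a +
      2 * (n : ℝ) ^ c ≤ R := by
    rw [abs_of_nonneg hh0]
    have s1 : (g v' - g v) * (n * (v' - v)) ≤ (|K| * (|J| * r n)) * (n * (|J| * r n)) :=
      mul_le_mul hd7 (mul_le_mul_of_nonneg_left hd6 hn3.le) (by positivity) (by
        have := hrpos n; positivity)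
    have s2 : (|K| * (|J| * r n)) * (n * (|J| * r n)) =
        25 * |K| * |J| ^ 2 * (n : ℝ) ^ (2 * a - 1) := by
      calc (|K| * (|J| * r n)) * (n * (|J| * r n)) = |K| * |J| ^ 2 * (r n * (r n * n)) := by ring
        _ = |K| * |J| ^ 2 * (5 * (r n * (n : ℝ) ^ a)) := by rw [hrn2]; ring
        _ = _ := by rw [hq1]; ring
    have s3 : 2 * (g v' - g v) * (n : ℝ) ^ a ≤ 2 * (|K| * (|J| * r n)) * (n : ℝ) ^ a :=
      mul_le_mul_of_nonneg_right (by linarith) hna.le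
    have s4 : 2 * (|K| * (|J| * r n)) * (n : ℝ) ^ a =
        10 * |K| * |J| * (n : ℝ) ^ (2 * a - 1) := by
      calc 2 * (|K| * (|J| * r n)) * (n : ℝ) ^ a = 2 * |K| * |J| * (r n * (n : ℝ) ^ a) := by ring
        _ = _ := by rw [hq1]; ring
    have s5 : 25 * |K| * |J| ^ 2 * (n : ℝ) ^ (2 * a - 1) ≤ 25 * |K| * |J| ^ 2 * (n : ℝ) ^ m :=
      mul_le_mul_of_nonneg_left hm2 (by positivity)
    have s6 : 10 * |K| * |J| * (n : ℝ) ^ (2 * a - 1) ≤ 10 * |K| * |J| * (n : ℝ) ^ m :=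
      mul_le_mul_of_nonneg_left hm2 (by positivity)
    have s7 : R = 25 * |K| * |J| ^ 2 * (n : ℝ) ^ m + 10 * |K| * |J| * (n : ℝ) ^ m +
        2 * (n : ℝ) ^ m := by
      rw [hRdef, hC0]; ring
    linarith
  have key := pair_bound ac he hab hp hm hβ hθ2.le hvv hR0 hR2
  have hhalf : 1 / 2 ≤ P.real {x | Real.exp (-(n : ℝ) ^ c) <
      prob β (g v) (fun i y => ω i y x) n (tube θ v ((n : ℝ) ^ a) n) ∧
      Real.exp (-(n : ℝ) ^ c) <
      prob β (g v') (fun i y => ω i y x) n (tube θ v' ((n : ℝ) ^ a) n)} :=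
    inter_ge (measurableSet_ev he.meas β θ a c v' (g v') n) hd4 hd5
  set ρ : ℝ := ((rows θ n).card : ℝ) with hρ
  have hρ1 : (1 - θ) * n ≤ ρ := rows_card_ge (by linarith) n
  have hρ0 : 0 < ρ := lt_of_lt_of_le (mul_pos (by linarith) hn3) hρ1
  have hwin : ((win θ v ((n : ℝ) ^ a) n).card : ℝ) ≤ ρ * (3 * (n : ℝ) ^ a) := by
    refine (card_win_le hna.le).trans ?_
    apply mul_le_mul_of_nonneg_left _ hρ0.le
    have : 1 ≤ (n : ℝ) ^ a := Real.one_le_rpow hn2 ha0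
    linarith
  have hRC : R + 2 ≤ C0 * (n : ℝ) ^ m := by
    rw [hRdef]
    nlinarith
  have k1 : ρ * q * (1 / 2) ≤ C0 * (n : ℝ) ^ m * Real.sqrt (ρ * (3 * (n : ℝ) ^ a) * K0) := by
    calc ρ * q * (1 / 2) ≤ _ := mul_le_mul_of_nonneg_left hhalf (by positivity)
      _ ≤ _ := key
      _ ≤ C0 * (n : ℝ) ^ m * Real.sqrt (ρ * (3 * (n : ℝ) ^ a) * K0) := by
        apply mul_le_mul hRC _ (Real.sqrt_nonneg _) (by positivity)
        apply Real.sqrt_le_sqrt
        exact mul_le_mul_of_nonneg_right hwin hK0pos.le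
  have k2 : (ρ * q * (1 / 2)) ^ 2 ≤ (C0 * (n : ℝ) ^ m) ^ 2 * (ρ * (3 * (n : ℝ) ^ a) * K0) := by
    have h1 : (0 : ℝ) ≤ ρ * (3 * (n : ℝ) ^ a) * K0 := by positivity
    calc (ρ * q * (1 / 2)) ^ 2 ≤
        (C0 * (n : ℝ) ^ m * Real.sqrt (ρ * (3 * (n : ℝ) ^ a) * K0)) ^ 2 :=
          pow_le_pow_left₀ (by positivity) k1 2
      _ = _ := by rw [mul_pow, Real.sq_sqrt h1]
  have k3 : ρ * (q ^ 2 / 4) ≤ 3 * K0 * C0 ^ 2 * ((n : ℝ) ^ m) ^ 2 * (n : ℝ) ^ a := by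
    have h1 : ρ * (ρ * (q ^ 2 / 4)) ≤
        ρ * (3 * K0 * C0 ^ 2 * ((n : ℝ) ^ m) ^ 2 * (n : ℝ) ^ a) := by
      calc ρ * (ρ * (q ^ 2 / 4)) = (ρ * q * (1 / 2)) ^ 2 := by ring
        _ ≤ _ := k2
        _ = _ := by ring
    exact le_of_mul_le_mul_left h1 hρ0
  have k4 : ((n : ℝ) ^ m) ^ 2 * (n : ℝ) ^ a = (n : ℝ) ^ (2 * m + a) := by
    rw [← Real.rpow_natCast, ← Real.rpow_mul hn3.le, ← Real.rpow_add hn3]
    congr 1
    push_cast
    ring
  have k5 : (1 - θ) * (q ^ 2 / 4) * n ≤ 3 * K0 * C0 ^ 2 * (n : ℝ) ^ (2 * m + a) := by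
    calc (1 - θ) * (q ^ 2 / 4) * n = (1 - θ) * n * (q ^ 2 / 4) := by ring
      _ ≤ ρ * (q ^ 2 / 4) := mul_le_mul_of_nonneg_right hρ1 (by positivity)
      _ ≤ _ := k3
      _ = _ := by rw [← k4]; ring
  rw [Real.rpow_one] at hn1
  have k6 : 0 < (1 - θ) * (q ^ 2 / 4) := mul_pos (by linarith) (by positivity)
  have k7 : 0 < (n : ℝ) ^ (2 * m + a) := Real.rpow_pos_of_pos hn3 _
  have k8 : (1 - θ) * (q ^ 2 / 4) *
      ((3 * K0 * C0 ^ 2 / ((1 - θ) * (q ^ 2 / 4)) + 1) * (n : ℝ) ^ (2 * m + a)) ≤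
      (1 - θ) * (q ^ 2 / 4) * n := mul_le_mul_of_nonneg_left hn1 k6.le
  have k9 : (1 - θ) * (q ^ 2 / 4) *
      ((3 * K0 * C0 ^ 2 / ((1 - θ) * (q ^ 2 / 4)) + 1) * (n : ℝ) ^ (2 * m + a)) =
      3 * K0 * C0 ^ 2 * (n : ℝ) ^ (2 * m + a) +
        (1 - θ) * (q ^ 2 / 4) * (n : ℝ) ^ (2 * m + a) := by
    rw [add_mul, mul_add, one_mul, div_mul_eq_mul_div, mul_div_cancel₀ _ k6.ne']
  have k10 : 0 < (1 - θ) * (q ^ 2 / 4) * (n : ℝ) ^ (2 * m + a) := mul_pos k6 k7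
  linarith

lemma ev_large {Ω : Type} [MeasurableSpace Ω] {P : Measure Ω} [IsProbabilityMeasure P]
    {E : ℕ → Set Ω} (hE : ∀ᵐ x ∂P, ∀ᶠ n : ℕ in atTop, x ∈ E n) :
    ∀ᶠ n : ℕ in atTop, 3 / 4 ≤ P.real (E n) := by
  set F : ℕ → Set Ω := fun N => {x | ∀ n, N ≤ n → x ∈ E n} with hF
  have hmono : Monotone F := fun N M hNM x hx n hn => hx n (hNM.trans hn)
  have hun : P (⋃ N, F N) = 1 := by
    have h1 : ∀ᵐ x ∂P, x ∈ ⋃ N, F N := by
      filter_upwards [hE] with x hx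
      rw [Set.mem_iUnion]
      exact eventually_atTop.1 hx
    rw [← measure_univ (μ := P)]
    exact measure_congr (eventuallyEq_univ.2 h1)
  have h2 := tendsto_measure_iUnion_atTop (μ := P) hmono
  rw [hun] at h2
  have h3 : Tendsto (fun N => P.real (F N)) atTop (𝓝 1) := by
    have := (ENNReal.tendsto_toReal ENNReal.one_ne_top).comp h2
    simpa [measureReal_def, Function.comp_def] using this
  have h4 : ∀ᶠ N in atTop, 3 / 4 < P.real (F N) := h3.eventually (lt_mem_nhds (by norm_num))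
  obtain ⟨N, hN⟩ := h4.exists
  filter_upwards [eventually_ge_atTop N] with n hn
  exact hN.le.trans (measureReal_mono (fun x hx => hx n hn) (measure_ne_top _ _))

lemma tube_mono {θ θ' v r r' : ℝ} {n : ℕ} (hθ : θ ≤ θ') (hr : r ≤ r') :
    tube θ v r n ⊆ tube θ' v r' n := by
  intro w hw i hi hin
  refine (hw i ?_ hin).trans hr
  refine le_trans ?_ hi
  exact mul_le_mul_of_nonneg_right hθ (Nat.cast_nonneg n)

theorem main (ac : S_AC) (sel : S_SEL) (zo : S_ZO) : S_MAIN := by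
  intro Ω _ P _ ω he hnc β hβ
  refine ⟨⋃ p : ℚ × ℚ × ℚ, ⋃ _ : 1 / 2 ≤ (p.1 : ℝ) ∧ (p.1 : ℝ) < 1 ∧ 0 ≤ (p.2.1 : ℝ) ∧
    (p.2.1 : ℝ) < 3 / 5 ∧ 0 < (p.2.2 : ℝ) ∧ (p.2.2 : ℝ) < (1 - (p.2.1 : ℝ)) / 2,
    bad P ω β p.1 p.2.1 p.2.2, ?_, ?_⟩
  · apply measure_iUnion_null
    intro p
    apply measure_iUnion_null
    rintro ⟨h1, h2, h3, h4, h5, h6⟩
    exact bad_null ac sel he hnc hβ h1 h2 h3 h4 h5 h6
  · intro v hv h θ a c hθ ha0 ha hc
    obtain ⟨θ', hθ1, hθ2⟩ := exists_rat_btwn (max_lt hθ (by norm_num : (1 / 2 : ℝ) < 1))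
    have haa : a < min (3 / 5) (1 - 2 * c) := lt_min ha (by linarith)
    obtain ⟨a', ha1, ha2⟩ := exists_rat_btwn haa
    have ha3 := lt_min_iff.1 ha2
    have hcc : max c 0 < (1 - (a' : ℝ)) / 2 := max_lt (by linarith [ha3.2]) (by linarith [ha3.1])
    obtain ⟨c', hc1, hc2⟩ := exists_rat_btwn hcc
    have hθ3 := max_lt_iff.1 hθ1
    have hc3 := max_lt_iff.1 hc1
    have hnb : ¬ ∀ᶠ n : ℕ in atTop, 3 / 4 ≤ P.real (ev ω β θ' a' c' v h n) := by
      intro hcon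
      apply hv
      rw [Set.mem_iUnion]
      refine ⟨(θ', a', c'), ?_⟩
      rw [Set.mem_iUnion]
      exact ⟨⟨hθ3.2.le, hθ2, by linarith, ha3.1, hc3.2, hc2⟩, h, hcon⟩
    have hz := zo Ω P ω he β h (fun n => tube θ' v ((n : ℝ) ^ (a' : ℝ)) n)
      (fun n => (n : ℝ) ^ (c' : ℝ)) (fun hcon => hnb (ev_large hcon))
    filter_upwards [hz] with x hx
    obtain ⟨C, hC⟩ := hx
    have e1 := pow_dom hc3.1 2
    have e2 := pow_dom hc3.2 (2 * C)
    refine (hC.and_eventually (e1.and (e2.and (eventually_ge_atTop 1)))).mono ?_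
    rintro n ⟨h1, h2, h3, hn⟩
    have hn1 : (1 : ℝ) ≤ n := by exact_mod_cast hn
    rw [Real.rpow_zero, mul_one] at h3
    calc prob β h (fun i y => ω i y x) n (tube θ v ((n : ℝ) ^ a) n) ≤
        prob β h (fun i y => ω i y x) n (tube θ' v ((n : ℝ) ^ (a' : ℝ)) n) :=
          prob_mono _ _ _ (tube_mono hθ3.1.le (Real.rpow_le_rpow_of_exponent_le hn1 ha1.le))
      _ ≤ _ := h1
      _ ≤ _ := Real.exp_le_exp.2 (by linarith)

end Pool.Agent.N662.SD
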