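import Mathlib

/-!
# Directed polymers in dimension 1+1 with a drift: definitions

The walk is encoded by its steps: `true` is a step `+1`, `false` is a step `-1`.
-/

set_option autoImplicit false

open MeasureTheory ProbabilityTheory Filter

namespace Pool.Agent.N662.SD

/-- The position `S_i` of the walk with steps `w`. -/
def pos {n : ℕ} (w : Fin n → Bool) (i : ℕ) : ℤ :=
  ∑ k : Fin n, if k.val < i then (if w k then 1 else -1) else 0

/-- The energy `∑_{i=1}^n η(i, S_i)` of the walk in the environment `η`. -/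
def energy {n : ℕ} (η : ℕ → ℤ → ℝ) (w : Fin n → Bool) : ℝ :=
  ∑ i : Fin n, η (i.val + 1) (pos w (i.val + 1))

/-- The sum of `exp (β ∑_{i≤n} η(i, S_i) + h S_n)` over the walks of `n` steps which are in `A`. -/
noncomputable def part (β h : ℝ) (η : ℕ → ℤ → ℝ) (n : ℕ) (A : Set (Fin n → Bool)) : ℝ :=
  ∑ w : Fin n → Bool, A.indicator (fun w => Real.exp (β * energy η w + h * (pos w n : ℝ))) w

/-- The polymer measure with drift `h`. -/
noncomputable def prob (β h : ℝ) (η : ℕ → ℤ → ℝ) (n : ℕ) (A : Set (Fin n → Bool)) : ℝ :=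
  part β h η n A / part β h η n Set.univ

/-- The walks which stay within distance `r` of the line of slope `v` at the times
`θ n ≤ i ≤ n`. -/
def tube (θ v r : ℝ) (n : ℕ) : Set (Fin n → Bool) :=
  {w | ∀ i : ℕ, θ * n ≤ i → i ≤ n → |(pos w i : ℝ) - i * v| ≤ r}

/-- An i.i.d. environment. -/
structure IsEnv {Ω : Type} [MeasurableSpace Ω] (P : Measure Ω) (ω : ℕ → ℤ → Ω → ℝ) : Prop where
  meas : ∀ i y, Measurable (ω i y)
  indep : iIndepFun (fun s : ℕ × ℤ => ω s.1 s.2) P
  ident : ∀ i y, IdentDistrib (ω i y) (ω 1 0) P P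

end Pool.Agent.N662.SD
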