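import Pool.Agent.N662.SD.Stm

/-!
# Project SD: deterministic part
-/

set_option autoImplicit false

open MeasureTheory ProbabilityTheory Filter Topology

namespace Pool.Agent.N662.SD

variable {n : ℕ}

lemma part_nonneg (β h : ℝ) (η : ℕ → ℤ → ℝ) (A : Set (Fin n → Bool)) : 0 ≤ part β h η n A :=
  Finset.sum_nonneg fun _ _ => Set.indicator_nonneg (fun _ _ => (Real.exp_pos _).le) _

lemma part_mono (β h : ℝ) (η : ℕ → ℤ → ℝ) {A B : Set (Fin n → Bool)} (hAB : A ⊆ B) :
    part β h η n A ≤ part β h η n B :=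
  Finset.sum_le_sum fun _ _ =>
    Set.indicator_le_indicator_of_subset hAB (fun _ => (Real.exp_pos _).le) _

lemma part_univ_pos (β h : ℝ) (η : ℕ → ℤ → ℝ) : 0 < part β h η n Set.univ := by
  unfold part
  apply Finset.sum_pos _ Finset.univ_nonempty
  intro w _
  rw [Set.indicator_of_mem (Set.mem_univ w)]
  exact Real.exp_pos _

lemma prob_nonneg (β h : ℝ) (η : ℕ → ℤ → ℝ) (A : Set (Fin n → Bool)) : 0 ≤ prob β h η n A :=
  div_nonneg (part_nonneg _ _ _ _) (part_nonneg _ _ _ _)

lemma prob_mono (β h : ℝ) (η : ℕ → ℤ → ℝ) {A B : Set (Fin n → Bool)} (hAB : A ⊆ B) :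
    prob β h η n A ≤ prob β h η n B :=
  div_le_div_of_nonneg_right (part_mono _ _ _ hAB) (part_nonneg _ _ _ _)

lemma part_pos_of_prob {β h : ℝ} {η : ℕ → ℤ → ℝ} {A : Set (Fin n → Bool)} {ε : ℝ} (hε : 0 ≤ ε)
    (hA : ε < prob β h η n A) : 0 < part β h η n A := by
  rcases (part_nonneg β h η A).lt_or_eq with h0 | h0
  · exact h0
  · exfalso
    unfold prob at hA
    rw [← h0, zero_div] at hA
    linarith

/-- comparison of partition functions with different drifts, from below -/
lemma part_drift_ge {β h h' v r : ℝ} {η : ℕ → ℤ → ℝ} {A : Set (Fin n → Bool)}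
    (hA : ∀ w ∈ A, |(pos w n : ℝ) - n * v| ≤ r) :
    Real.exp ((h' - h) * (n * v) - |h' - h| * r) * part β h η n A ≤ part β h' η n A := by
  unfold part
  rw [Finset.mul_sum]
  apply Finset.sum_le_sum
  intro w _
  by_cases hw : w ∈ A
  · rw [Set.indicator_of_mem hw, Set.indicator_of_mem hw, ← Real.exp_add]
    apply Real.exp_le_exp.2
    have h1 := hA w hw
    have h2 : |(h' - h) * ((pos w n : ℝ) - n * v)| ≤ |h' - h| * r := by
      rw [abs_mul]
      exact mul_le_mul_of_nonneg_left h1 (abs_nonneg _)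
    have h3 := neg_abs_le ((h' - h) * ((pos w n : ℝ) - n * v))
    nlinarith
  · rw [Set.indicator_of_notMem hw, Set.indicator_of_notMem hw, mul_zero]

/-- comparison of partition functions with different drifts, from above -/
lemma part_drift_le {β h h' v r : ℝ} {η : ℕ → ℤ → ℝ} {A : Set (Fin n → Bool)}
    (hA : ∀ w ∈ A, |(pos w n : ℝ) - n * v| ≤ r) :
    part β h' η n A ≤ Real.exp ((h' - h) * (n * v) + |h' - h| * r) * part β h η n A := by
  unfold part
  rw [Finset.mul_sum]
  apply Finset.sum_le_sum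
  intro w _
  by_cases hw : w ∈ A
  · rw [Set.indicator_of_mem hw, Set.indicator_of_mem hw, ← Real.exp_add]
    apply Real.exp_le_exp.2
    have h1 := hA w hw
    have h2 : |(h' - h) * ((pos w n : ℝ) - n * v)| ≤ |h' - h| * r := by
      rw [abs_mul]
      exact mul_le_mul_of_nonneg_left h1 (abs_nonneg _)
    have h3 := le_abs_self ((h' - h) * ((pos w n : ℝ) - n * v))
    nlinarith
  · rw [Set.indicator_of_notMem hw, Set.indicator_of_notMem hw, mul_zero]

lemma log_part_univ_le {β h b : ℝ} {η : ℕ → ℤ → ℝ} {A B : Set (Fin n → Bool)}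
    (hA : Real.exp (-b) < prob β h η n A) (hB : 0 < part β h η n B) :
    Real.log (part β h η n B) ≤ Real.log (part β h η n A) + b := by
  have hp := part_pos_of_prob (Real.exp_pos _).le hA
  unfold prob at hA
  rw [lt_div_iff₀ (part_univ_pos β h η)] at hA
  have h1 : part β h η n B ≤ part β h η n A * Real.exp b := by
    have h2 := part_mono β h η (Set.subset_univ B)
    have h3 : part β h η n Set.univ ≤ part β h η n A * Real.exp b := by
      have h4 : Real.exp b * (Real.exp (-b) * part β h η n Set.univ) <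
          Real.exp b * part β h η n A := mul_lt_mul_of_pos_left hA (Real.exp_pos b)
      rw [← mul_assoc, ← Real.exp_add, add_neg_cancel, Real.exp_zero, one_mul] at h4
      linarith
    exact h2.trans h3
  calc Real.log (part β h η n B) ≤ Real.log (part β h η n A * Real.exp b) :=
        Real.log_le_log hB h1
    _ = _ := by rw [Real.log_mul hp.ne' (Real.exp_pos b).ne', Real.log_exp]

/-- the sandwich -/
lemma sandwich {β h h' v v' r b : ℝ} {η : ℕ → ℤ → ℝ} {A A' : Set (Fin n → Bool)}
    (hA : ∀ w ∈ A, |(pos w n : ℝ) - n * v| ≤ r) (hA' : ∀ w ∈ A', |(pos w n : ℝ) - n * v'| ≤ r)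
    (h1 : Real.exp (-b) < prob β h η n A) (h2 : Real.exp (-b) < prob β h' η n A') :
    Real.log (part β h η n A') ≤ Real.log (part β h η n A) + b ∧
    Real.log (part β h η n A) ≤ Real.log (part β h η n A') +
      ((h' - h) * (n * (v' - v)) + 2 * |h' - h| * r + b) := by
  have pA : 0 < part β h η n A := part_pos_of_prob (Real.exp_pos _).le h1
  have pA' : 0 < part β h' η n A' := part_pos_of_prob (Real.exp_pos _).le h2
  have qA' : 0 < part β h η n A' := by
    have h3 := part_drift_le (β := β) (h := h) (h' := h') (η := η) hA'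
    by_contra hc
    have h4 : part β h η n A' = 0 := le_antisymm (not_lt.1 hc) (part_nonneg _ _ _ _)
    rw [h4, mul_zero] at h3
    linarith
  have qA : 0 < part β h' η n A := by
    have h3 := part_drift_ge (β := β) (h := h) (h' := h') (η := η) hA
    exact lt_of_lt_of_le (mul_pos (Real.exp_pos _) pA) h3
  refine ⟨log_part_univ_le h1 qA', ?_⟩
  have h3 := log_part_univ_le h2 qA
  have h4 := Real.log_le_log (mul_pos (Real.exp_pos _) pA)
    (part_drift_ge (β := β) (h := h) (h' := h') (η := η) hA)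
  have h5 := Real.log_le_log pA' (part_drift_le (β := β) (h := h) (h' := h') (η := η) hA')
  rw [Real.log_mul (Real.exp_pos _).ne' pA.ne', Real.log_exp] at h4
  rw [Real.log_mul (Real.exp_pos _).ne' qA'.ne', Real.log_exp] at h5
  linarith

/-- the drift is monotone in the slope -/
lemma drift_mono {β h h' v v' r b : ℝ} {η : ℕ → ℤ → ℝ} {A A' : Set (Fin n → Bool)}
    (hA : ∀ w ∈ A, |(pos w n : ℝ) - n * v| ≤ r) (hA' : ∀ w ∈ A', |(pos w n : ℝ) - n * v'| ≤ r)
    (h1 : Real.exp (-b) < prob β h η n A) (h2 : Real.exp (-b) < prob β h' η n A')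
    (hh : h' < h) : (h - h') * (n * (v' - v) - 2 * r) ≤ 2 * b := by
  obtain ⟨h3, h4⟩ := sandwich hA hA' h1 h2
  rw [abs_of_neg (by linarith)] at h4
  nlinarith

end Pool.Agent.N662.SD
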