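import Pool.Agent.N662.SD.Def

/-!
# Project SD: statements of the parts
-/

set_option autoImplicit false

open MeasureTheory ProbabilityTheory Filter Topology

namespace Pool.Agent.N662.SD

/-- AC: anti-concentration of the free energy of weighted paths, relative to a function `Y` which
does not depend on the sites of `T`. -/
def S_AC : Prop := ∀ (ι W : Type) [Fintype ι] [DecidableEq ι] [Fintype W] [Nonempty W]
  (μ : Measure ℝ) [IsProbabilityMeasure μ] (a b : ℝ), a < b → 0 < μ.real (Set.Ici b) →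
  0 < μ.real (Set.Iic a) → ∀ (β : ℝ), 0 < β → ∀ (T : Finset ι) (c : W → ℝ), (∀ w, 0 < c w) →
  ∀ (vis : W → Finset ι) (m : ℕ), (∀ w, (vis w ∩ T).card = m) →
  ∀ (Y : (ι → ℝ) → ℝ), Measurable Y → (∀ η η' : ι → ℝ, (∀ s, s ∉ T → η s = η' s) → Y η = Y η') →
  ∀ R : ℝ, 0 ≤ R →
  m * (1 - Real.exp (-(β * (b - a)))) * (Measure.pi fun _ : ι => μ).real
      {η | Y η ≤ Real.log (∑ w, c w * Real.exp (β * ∑ s ∈ vis w, η s)) ∧
        Real.log (∑ w, c w * Real.exp (β * ∑ s ∈ vis w, η s)) ≤ Y η + R} ≤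
    (R + 2) * Real.sqrt (T.card * (1 / μ.real (Set.Ici b) + 1 / μ.real (Set.Iic a)))

/-- SEL: in a set of positive outer measure carrying a monotone function there are pairs of points
at distance comparable to `r n`, with controlled increment of the function, which are both good
for `n`. -/
def S_SEL : Prop := ∀ (B : Set ℝ), volume B ≠ 0 → ∀ h : ℝ → ℝ, MonotoneOn h B →
  ∀ Q : ℝ → ℕ → Prop, (∀ v ∈ B, ∀ᶠ n in atTop, Q v n) →
  ∀ r : ℕ → ℝ, (∀ n, 0 < r n) → Tendsto r atTop (𝓝 0) →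
  ∃ K J : ℝ, ∀ᶠ n in atTop, ∃ v ∈ B, ∃ v' ∈ B, r n ≤ v' - v ∧ v' - v ≤ J * r n ∧
    h v' - h v ≤ K * (v' - v) ∧ Q v n ∧ Q v' n

/-- ZO: a zero-one law. -/
def S_ZO : Prop := ∀ (Ω : Type) [MeasurableSpace Ω] (P : Measure Ω) [IsProbabilityMeasure P]
  (ω : ℕ → ℤ → Ω → ℝ), IsEnv P ω → ∀ (β h : ℝ) (A : ∀ n : ℕ, Set (Fin n → Bool)) (b : ℕ → ℝ),
  ¬ (∀ᵐ x ∂P, ∀ᶠ n in atTop, Real.exp (-b n) < prob β h (fun i y => ω i y x) n (A n)) →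
  ∀ᵐ x ∂P, ∃ C : ℝ, ∃ᶠ n in atTop, prob β h (fun i y => ω i y x) n (A n) ≤ Real.exp (C - b n)

/-- The main theorem. -/
def S_MAIN : Prop := ∀ (Ω : Type) [MeasurableSpace Ω] (P : Measure Ω) [IsProbabilityMeasure P]
  (ω : ℕ → ℤ → Ω → ℝ), IsEnv P ω → (¬ ∃ c : ℝ, ∀ᵐ x ∂P, ω 1 0 x = c) → ∀ β : ℝ, 0 < β →
  ∃ N : Set ℝ, volume N = 0 ∧ ∀ v : ℝ, v ∉ N → ∀ h θ a c : ℝ, θ < 1 → 0 ≤ a → a < 3 / 5 →
    c < (1 - a) / 2 → ∀ᵐ x ∂P, ∃ᶠ n : ℕ in atTop,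
      prob β h (fun i y => ω i y x) n (tube θ v ((n : ℝ) ^ a) n) ≤ Real.exp (-(n : ℝ) ^ c)

end Pool.Agent.N662.SD
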